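import Pool.Agent.R267.DI.AsmB

set_option autoImplicit false
open Complex Real

/-!
# MP_c7f82c_an: rotationally symmetric tori, eigenfunctions with few angular frequencies

`M = ℝ² / (ℤ (a, s) + ℤ (0, b))` with the metric `ρ(x) (dx² + dy²)`, `ρ > 0` continuous and
`a`-periodic (no smoothness or analyticity is needed).  The definitions `gdist` (geodesic distance),
`IsEigenfunction`, `doublingIndex`, `IsAdmissible`, `fc` (Fourier coefficients in `y`) are in
`Pool.Agent.R267.DI.Defs` and `Pool.Agent.R267.DI.Defs2`.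
-/
namespace Pool.Agent.Results.MP_c7f82c_an.FewFrequencies
open Pool.Agent.R267.DI

/-- The angular frequencies `m` at the energy `lam`: there is a nonzero solution of
`u'' = ((2 π m / b)² - lam ρ) u` with `u(x + a) = exp(-2 π i m s / b) u(x)`, i.e. such that
`u(x) exp(2 π i m y / b)` is an eigenfunction on the torus. -/
def frequencies (ρ : ℝ → ℝ) (a b s lam : ℝ) : Set ℤ :=
  {m : ℤ | ∃ u u' : ℝ → ℂ, (∃ x, u x ≠ 0) ∧ (∀ x, HasDerivAt u (u' x) x) ∧
    (∀ x, HasDerivAt u' ((((2 * π / b * m) ^ 2 - lam * ρ x : ℝ) : ℂ) * u x) x) ∧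
    ∀ x, u (x + a) = Complex.exp (-(Complex.I * ((2 * π / b * m : ℝ) : ℂ) * (s : ℂ))) * u x}

/-- (1) For every torus as above and all `K`, `C` there is `A` such that every doubling index at the
wavelength scale `C / √lam` is at most `A` for every eigenfunction with at most `K` angular
frequencies.
(2) If the torus has at most `K` angular frequencies at every energy, then the inequality of the
question holds on this torus. -/
theorem result (ρ : ℝ → ℝ) (a b s : ℝ) (hρ : Continuous ρ) (ha : 0 < a) (hb : 0 < b)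
    (hpos : ∀ x, 0 < ρ x) (hper : ∀ x, ρ (x + a) = ρ x) (K : ℕ) :
    (∀ C : ℝ, 0 < C → ∃ A : ℝ, ∀ (lam : ℝ) (φ : ℝ → ℝ → ℝ), 0 < lam →
      IsEigenfunction ρ a b s lam φ → {m : ℤ | ∃ x, fc b φ m x ≠ 0}.encard ≤ K →
      ∀ q : ℝ × ℝ, doublingIndex ρ a b s φ q (C / Real.sqrt lam) ≤ A) ∧
    ((∀ lam : ℝ, 0 < lam → (frequencies ρ a b s lam).encard ≤ K) →
      ∀ C C1 C2 : ℝ, 0 < C → 0 < C1 → 0 < C2 → ∃ A : ℝ, ∀ (lam : ℝ) (φ : ℝ → ℝ → ℝ), 0 < lam →
        IsEigenfunction ρ a b s lam φ →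
        ∀ (ι : Type) [Fintype ι] (c : ι → ℝ × ℝ), IsAdmissible ρ a b s lam φ C C1 C2 c →
        (∑ i, doublingIndex ρ a b s φ (c i) (C / Real.sqrt lam)) / Fintype.card ι ≤ A) := by
  constructor
  · intro C hC
    obtain ⟨A, -, hA⟩ := few_frequencies (s := s) hρ ha hb hpos hper K hC
    exact ⟨A, hA⟩
  · intro hK C C1 C2 hC _ _
    obtain ⟨A, hA0, hA⟩ := few_frequencies (s := s) hρ ha hb hpos hper K hC
    refine ⟨A, ?_⟩
    intro lam φ hlam h ι _ c _
    obtain ⟨ρ0, ρ1, hρ0, h0, h1⟩ := exists_bounds hρ ha hpos hper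
    obtain ⟨M, hM, -⟩ := exists_M (lam := lam) (ρ1 := ρ1) hb
    obtain ⟨u', hu, hu', -, -⟩ := s_FOU ρ a b s lam ρ1 φ M hρ ha hb hlam h1 hper h.smooth
      h.per2 h.per1 h.pde hM
    have hsub : {m : ℤ | ∃ x, fc b φ m x ≠ 0} ⊆ frequencies ρ a b s lam := by
      intro m hm
      refine ⟨fc b φ m, u' m, hm, hu m, hu' m, fun x => ?_⟩
      rw [Fou.fc_shift hb h.per2 h.per1 m x]
      rfl
    have hall : ∀ q : ℝ × ℝ, doublingIndex ρ a b s φ q (C / Real.sqrt lam) ≤ A :=
      hA lam φ hlam h ((Set.encard_le_encard hsub).trans (hK lam hlam))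
    apply div_le_of_le_mul₀ (by positivity) hA0
    calc ∑ i, doublingIndex ρ a b s φ (c i) (C / Real.sqrt lam)
        ≤ ∑ _i : ι, A := Finset.sum_le_sum (fun i _ => hall (c i))
      _ = A * Fintype.card ι := by
        rw [Finset.sum_const, Finset.card_univ, nsmul_eq_mul, mul_comm]

end Pool.Agent.Results.MP_c7f82c_an.FewFrequencies
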